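import Pool.Agent.ATP.Stmts
import Pool.Agent.Helper65_AT2.TYA
import Pool.Agent.Helper94_PP.Nch

/-!
# Squad ATP, row PUN: uniqueness of the pair below, and the normal case
-/

open scoped BigOperators

noncomputable section

namespace Pool.Agent.PP.TP.H64

open Pool.Agent.Helper51_AWC Pool.Agent.Helper79_WRA Pool.Agent.PP Pool.Agent.PP.KF
open Pool.Agent.PP.K9 Pool.Agent.PP.K9.H97 Pool.Agent.PP.H75 Pool.Agent.PP.T3 Pool.Agent.PP.T2
open Pool.Agent.PP.TB

attribute [local instance] Ideal.Quotient.field

variable {ℓ : ℕ} {G F : Type} [Group G] [Finite G] [Field F]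

/-- a pair over the same subgroup -/
theorem le_self {P : Subgroup G} {a c : G → F} (ha : Pq ℓ P a) (h : Le ℓ P a P c) : a = c := by
  rcases h.first ha with ⟨-, h1⟩ | ⟨R, a', hR, hn, hlt, hle⟩
  · exact h1
  · exact absurd hle.sub (not_le_of_gt hlt)

/-- normalisers grow -/
theorem grow_inf [Fact ℓ.Prime] {K P : Subgroup G} (hP : IsPGroup ℓ P) (h : K < P) :
    K < P ⊓ Subgroup.normalizer (K : Set G) := by
  obtain ⟨x, hxP, hxK, hxN⟩ := H94.grow hP h
  refine lt_of_le_of_ne (le_inf h.le Subgroup.le_normalizer) ?_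
  intro heq
  apply hxK
  rw [heq]
  exact ⟨hxP, hxN⟩

/-- a maximal subgroup over a given one; it is normal -/
theorem exists_max [Fact ℓ.Prime] {R P : Subgroup G} (hP : IsPGroup ℓ P) (h : R < P) :
    ∃ K : Subgroup G, R ≤ K ∧ K < P ∧ P ≤ Subgroup.normalizer (K : Set G) := by
  have hfin : (Set.univ : Set (Subgroup G)).Finite := Set.toFinite _
  have hs : {K : Subgroup G | R ≤ K ∧ K < P}.Finite := hfin.subset (Set.subset_univ _)
  obtain ⟨K, hK⟩ := hs.exists_maximal ⟨R, le_rfl, h⟩
  have hKmem : R ≤ K ∧ K < P := hK.prop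
  refine ⟨K, hKmem.1, hKmem.2, ?_⟩
  have hg := grow_inf hP hKmem.2
  by_contra hcon
  have hlt : P ⊓ Subgroup.normalizer (K : Set G) < P := by
    refine lt_of_le_of_ne inf_le_left ?_
    intro heq
    exact hcon (inf_eq_left.1 heq)
  have h1 : R ≤ P ⊓ Subgroup.normalizer (K : Set G) ∧ P ⊓ Subgroup.normalizer (K : Set G) < P :=
    ⟨hKmem.1.trans hg.le, hlt⟩
  exact absurd (hK.le_of_ge h1 hg.le) (not_le_of_gt hg)

theorem card_lt {H K : Subgroup G} (h : H < K) : Nat.card H < Nat.card K := by
  have h1 : Nat.card H ≤ Nat.card K := Subgroup.card_le_of_le h.le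
  refine lt_of_le_of_ne h1 ?_
  intro heq
  exact h.ne (Subgroup.eq_of_le_of_card_ge h.le heq.ge)

/-- PUN -/
theorem pun (np1 : Np1Stmt) (pcj : PcjStmt) (pex : PexStmt) : PunStmt := by
  intro ℓ F _ hF G _ _
  have hpr : Fact ℓ.Prime := ⟨hF.prime⟩
  have main : ∀ (n : ℕ) (P : Subgroup G) (c : G → F), Pq ℓ P c → ∀ (Q : Subgroup G) (b : G → F),
      Pq ℓ Q b → Le ℓ Q b P c → Nat.card P - Nat.card Q = n →
      (∀ b' : G → F, Pq ℓ Q b' → Le ℓ Q b' P c → b' = b) ∧
      (P ≤ Subgroup.normalizer (Q : Set G) → Nl Q b P c) := by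
    intro n
    induction n using Nat.strong_induction_on with
    | _ n ih =>
    intro P c hP Q b hQ hle hn
    have hQP : Q ≤ P := hle.sub
    -- the normal case, for all b
    have hN : ∀ b : G → F, Pq ℓ Q b → Le ℓ Q b P c →
        P ≤ Subgroup.normalizer (Q : Set G) → Nl Q b P c := by
      intro b hQ hle hnor
      rcases hle.first hQ with ⟨h1, h2⟩ | ⟨R, a, hR, hna, hlt, hRP⟩
      · subst h1
        obtain ⟨b1, hb1, hb1le, hb1n⟩ := pex ℓ F hF G Q c hP Q le_rfl
        have h3 : b1 = c := le_self hb1 hb1le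
        rw [h2, ← h3]
        have h4 := hb1n hnor
        rw [← h3] at h4
        exact h4
      · have hRle : R ≤ P := hRP.sub
        rcases eq_or_lt_of_le hRle with h1 | h1
        · subst h1
          have h2 : a = c := le_self hR hRP
          rw [← h2]
          exact hna
        · obtain ⟨K, hRK, hKP, hKn⟩ := exists_max hP.pg h1
          obtain ⟨m, hm, hmle, hmn⟩ := pex ℓ F hF G P c hP K hKP.le
          have hNm : Nl K m P c := hmn hKn
          obtain ⟨a', ha', ha'le, -⟩ := pex ℓ F hF G K m hm R hRK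
          have cQR : Nat.card Q < Nat.card R := card_lt hlt
          have cRP : Nat.card R < Nat.card P := card_lt h1
          have cKP : Nat.card K < Nat.card P := card_lt hKP
          have cRK : Nat.card R ≤ Nat.card K := Subgroup.card_le_of_le hRK
          have haa : a' = a :=
            (ih (Nat.card P - Nat.card R) (by omega) P c hP R a hR hRP rfl).1 a' ha'
              (ha'le.trans hmle)
          have hQK : Le ℓ Q b K m := by
            rw [haa] at ha'le
            exact (Le.one hQ hR hna).trans ha'le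
          obtain ⟨hU, hNK⟩ := ih (Nat.card K - Nat.card Q) (by omega) K m hm Q b hQ hQK rfl
          have hbm : Nl Q b K m := hNK (hKP.le.trans hnor)
          have hinv : ∀ x ∈ P, cj x b = b := by
            intro x hx
            have hxQ : conjS x Q = Q := mem_normalizer_iff_conjS.1 (hnor hx)
            have hxK : conjS x K = K := mem_normalizer_iff_conjS.1 (hKn hx)
            obtain ⟨p1, -, p3, -⟩ := pcj ℓ F G x
            have h3 := p3 Q K b m hQK
            have h4 := p1 Q b hQ
            rw [hxQ, hxK, hNm.inv x hx] at h3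
            rw [hxQ] at h4
            exact hU _ h4 h3
          refine ⟨hQP, hnor, hinv, ?_⟩
          have i1 : H66.Inv P (br K b) := by
            intro x hx
            have hxK : conjS x K = K := mem_normalizer_iff_conjS.1 (hKn hx)
            have h3 : cj x (br K b) = br K b := by
              rw [← T2.H65.cj_br, hxK, hinv x hx]
            exact (cj_eq_iff _ _).1 h3
          have i2 : H66.Inv P m := fun x hx => (cj_eq_iff _ _).1 (hNm.inv x hx)
          have h5 := H66.br_mulF hF hP.pg i1 i2
          rw [hbm.und, C2.H3.br_br hKP.le] at h5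
          calc mulF (br P b) c = mulF (br P b) (mulF (br P m) c) := by rw [hNm.und]
            _ = mulF (mulF (br P b) (br P m)) c := by rw [mulF_assoc]
            _ = mulF (br P m) c := by rw [← h5]
            _ = c := hNm.und
    refine ⟨?_, hN b hQ hle⟩
    intro b' hQ' hle'
    by_cases hnor : P ≤ Subgroup.normalizer (Q : Set G)
    · obtain ⟨b0, -, -, huni⟩ := np1 ℓ F hF G Q P hP.pg hQP hnor c hP.blk
      rw [huni b hQ.blk (hN b hQ hle hnor), huni b' hQ'.blk (hN b' hQ' hle' hnor)]
    · have hlt : Q < P := by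
        refine lt_of_le_of_ne hQP ?_
        intro heq
        apply hnor
        rw [← heq]
        exact Subgroup.le_normalizer
      have hQS : Q < P ⊓ Subgroup.normalizer (Q : Set G) := grow_inf hP.pg hlt
      have hSP : P ⊓ Subgroup.normalizer (Q : Set G) < P := by
        refine lt_of_le_of_ne inf_le_left ?_
        intro heq
        exact hnor (inf_eq_left.1 heq)
      obtain ⟨s, hs, hsle, -⟩ := pex ℓ F hF G P c hP _ hSP.le
      have cSP : Nat.card (P ⊓ Subgroup.normalizer (Q : Set G) : Subgroup G) < Nat.card P :=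
        card_lt hSP
      have cQS : Nat.card Q < Nat.card (P ⊓ Subgroup.normalizer (Q : Set G) : Subgroup G) :=
        card_lt hQS
      have hS : ∀ b : G → F, Pq ℓ Q b → Le ℓ Q b P c →
          Le ℓ Q b (P ⊓ Subgroup.normalizer (Q : Set G)) s := by
        intro b hQ hle
        rcases hle.first hQ with ⟨h1, -⟩ | ⟨R, a, hR, hna, hltR, hRP⟩
        · exact absurd h1 hlt.ne
        · have hRS : R ≤ P ⊓ Subgroup.normalizer (Q : Set G) := le_inf hRP.sub hna.nor
          obtain ⟨a', ha', ha'le, -⟩ := pex ℓ F hF G _ s hs R hRS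
          have cQR : Nat.card Q < Nat.card R := card_lt hltR
          have cRP : Nat.card R ≤ Nat.card P := Subgroup.card_le_of_le hRP.sub
          have haa : a' = a :=
            (ih (Nat.card P - Nat.card R) (by omega) P c hP R a hR hRP rfl).1 a' ha'
              (ha'le.trans hsle)
          rw [haa] at ha'le
          exact (Le.one hQ hR hna).trans ha'le
      exact (ih (Nat.card (P ⊓ Subgroup.normalizer (Q : Set G) : Subgroup G) - Nat.card Q)
        (by omega) _ s hs Q b hQ (hS b hQ hle) rfl).1 b' hQ' (hS b' hQ' hle')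
  intro P c hP Q b hQ hle
  exact main _ P c hP Q b hQ hle rfl

end Pool.Agent.PP.TP.H64
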